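import Mathlib
import Pool.Agent.E8helper52.RL.AE

set_option autoImplicit false

/-! Almost every real orbit of the entire function `f₀` follows the orbit of an integer under the
`3x+1` function. -/

open Filter Topology MeasureTheory

namespace Pool.Agent.Results.MP_071ec9_an.AlmostEveryRealH52

open Pool.Agent.H384R2.Fatou

/-- The entire function of Letherman, Schleicher and Wood; `f₀ n = T n` for every integer `n`. -/
noncomputable def f₀ (z : ℂ) : ℂ :=
  z / 2 + (z + 1 / 2) * ((1 - Complex.cos (Real.pi * z)) / 2) +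
    1 / Real.pi * (1 / 2 - Complex.cos (Real.pi * z)) * Complex.sin (Real.pi * z)

/-- The `3x+1` function. -/
def T (n : ℤ) : ℤ := if n % 2 = 0 then n / 2 else (3 * n + 1) / 2

/-- The Fatou component of `f₀` which contains the integer `n`. -/
def U (n : ℤ) : Set ℂ := FatouComponent f₀ (n : ℂ)

/-- * For Lebesgue almost every real `x` some iterate `f₀^k x` lies in the component `U n` of an
  integer `n`, and the orbit of `f₀^k x` approaches the orbit of `n` under `T` doubly exponentially.
* In particular the real points of the Julia set of `f₀` form a set of Lebesgue measure zero.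
* No component `U n` is a wandering domain if and only if almost every real point has a bounded orbit
  under `f₀`, and also if and only if the real points with an orbit tending to infinity form a set of
  Lebesgue measure zero. -/
theorem result :
    (∀ᵐ x : ℝ, ∃ (n : ℤ) (k : ℕ), f₀^[k] (x : ℂ) ∈ U n ∧ ∃ q : ℝ, 0 ≤ q ∧ q < 1 ∧
      ∀ᶠ j : ℕ in atTop, ‖f₀^[k + j] (x : ℂ) - ((T^[j] n : ℤ) : ℂ)‖ ≤ q ^ (2 ^ j)) ∧
    volume {x : ℝ | (x : ℂ) ∉ FatouSet f₀} = 0 ∧
    ((∀ n : ℤ, ¬ IsWanderingDomain f₀ (U n)) ↔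
      ∀ᵐ x : ℝ, ∃ R : ℝ, ∀ k : ℕ, ‖f₀^[k] (x : ℂ)‖ ≤ R) ∧
    ((∀ n : ℤ, ¬ IsWanderingDomain f₀ (U n)) ↔
      volume {x : ℝ | Tendsto (fun k : ℕ => ‖f₀^[k] (x : ℂ)‖) atTop atTop} = 0) :=
  ⟨Pool.Agent.E8helper52.RL.ae_follow, Pool.Agent.E8helper52.RL.julia_null,
    Pool.Agent.E8helper52.RL.bounded_iff, Pool.Agent.E8helper52.RL.escape_null_iff⟩

end Pool.Agent.Results.MP_071ec9_an.AlmostEveryRealH52
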