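import Mathlib
import Pool.Agent.E8helper52.DL.Law

set_option autoImplicit false

/-! The limit law for the invariant sets of real points of the entire function `f₀`: in far unit
intervals their measures converge, at a polynomial rate, to a probability which charges every invariant
set that is not null on the half line. -/

open Filter Topology MeasureTheory

namespace Pool.Agent.Results.MP_071ec9_an.LimitLawH52

open Pool.Agent.H384R2.Fatou

/-- The entire function of Letherman, Schleicher and Wood; `f₀ n = T n` for every integer `n`. -/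
noncomputable def f₀ (z : ℂ) : ℂ :=
  z / 2 + (z + 1 / 2) * ((1 - Complex.cos (Real.pi * z)) / 2) +
    1 / Real.pi * (1 / 2 - Complex.cos (Real.pi * z)) * Complex.sin (Real.pi * z)

/-- The `3x+1` function. -/
def T (n : ℤ) : ℤ := if n % 2 = 0 then n / 2 else (3 * n + 1) / 2

/-- The Fatou component of `f₀` which contains the integer `n`. -/
def U (n : ℤ) : Set ℂ := FatouComponent f₀ (n : ℂ)

/-- `E` is a Borel set of real numbers and a real number lies in `E` exactly when its image under `f₀`
does. -/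
def Inv (E : Set ℝ) : Prop :=
  MeasurableSet E ∧ ∀ x y : ℝ, f₀ (x : ℂ) = (y : ℂ) → (x ∈ E ↔ y ∈ E)

/-- The measure of the part of `E` in the unit interval `[n, n + 1]` if `ε = 1`, and in the unit
interval `[-n - 1, -n]` if `ε = -1`. -/
noncomputable def dens (ε : ℝ) (E : Set ℝ) (n : ℕ) : ℝ :=
  (volume {x : ℝ | x ∈ E ∧ (n : ℝ) ≤ ε * x ∧ ε * x ≤ n + 1}).toReal

/-- The real points whose orbit enters one of the components `U (T^j m)`. -/
def Joins (m : ℤ) : Set ℝ := {x : ℝ | ∃ k j : ℕ, f₀^[k] (x : ℂ) ∈ U (T^[j] m)}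

/-- The real points whose orbit tends to infinity. -/
def Escaping : Set ℝ := {x : ℝ | Tendsto (fun k : ℕ => ‖f₀^[k] (x : ℂ)‖) atTop atTop}

theorem F_of_inv {E : Set ℝ} (h : Inv E) : Pool.Agent.H723R2.LSW.F ⁻¹' E = E := by
  ext x
  exact (h.2 x (Pool.Agent.H723R2.LSW.F x) (Pool.Agent.H723R2.LSW.F_coe x).symm).symm

theorem dens_eq {b : Bool} {ε : ℝ} (hε : ε = if b then 1 else -1) (E : Set ℝ) (n : ℕ) :
    dens ε E n = Pool.Agent.E8helper52.DL.den E (Pool.Agent.E8helper52.DL.un b n) := by
  unfold dens Pool.Agent.E8helper52.DL.den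
  congr 2
  ext x
  cases b with
  | true =>
    simp only [if_true] at hε
    rw [hε]
    simp [Pool.Agent.E8helper52.DL.un]
    tauto
  | false =>
    simp only [Bool.false_eq_true, if_false] at hε
    rw [hε]
    simp only [Pool.Agent.E8helper52.DL.un, Bool.false_eq_true, if_false, Set.mem_ofPred_eq,
      Set.mem_inter_iff, Set.mem_Icc]
    push_cast
    constructor
    · rintro ⟨h1, h2, h3⟩
      exact ⟨h1, by linarith, by linarith⟩
    · rintro ⟨h1, h2, h3⟩
      exact ⟨h1, by linarith, by linarith⟩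

theorem half_eq {b : Bool} {ε : ℝ} (hε : ε = if b then 1 else -1) (E : Set ℝ) :
    {x : ℝ | x ∈ E ∧ 1 ≤ ε * x} = E ∩ Pool.Agent.E8helper52.DL.half b := by
  ext x
  cases b with
  | true =>
    simp only [if_true] at hε
    rw [hε]
    simp [Pool.Agent.E8helper52.DL.half]
  | false =>
    simp only [Bool.false_eq_true, if_false] at hε
    rw [hε]
    simp only [Pool.Agent.E8helper52.DL.half, Bool.false_eq_true, if_false, Set.mem_ofPred_eq,
      Set.mem_inter_iff, Set.mem_Iic]
    constructor
    · rintro ⟨h1, h2⟩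
      exact ⟨h1, by linarith⟩
    · rintro ⟨h1, h2⟩
      exact ⟨h1, by linarith⟩

theorem side_iff {b : Bool} {ε : ℝ} (hε : ε = if b then 1 else -1) (m : ℤ) :
    1 ≤ ε * m ↔ if b then 1 ≤ m else m ≤ -1 := by
  cases b with
  | true =>
    simp only [if_true] at hε ⊢
    rw [hε, one_mul]
    exact_mod_cast Iff.rfl
  | false =>
    simp only [Bool.false_eq_true, if_false] at hε ⊢
    rw [hε]
    constructor
    · intro h
      have : (m : ℝ) ≤ -1 := by linarith
      exact_mod_cast this
    · intro h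
      have : (m : ℝ) ≤ -1 := by exact_mod_cast h
      linarith

/-- There is a constant `C` such that on either side (`ε = 1` or `ε = -1`) there is a function `β`,
a countably additive probability on the invariant Borel sets of real numbers, with the following
properties.
* For every invariant Borel set `E` and every `n ≥ 1` the measure of `E` in the `n`-th unit interval
  differs from `β E` by at most `C n ^ (-1/20)`, and `β E = 0` if and only if `E` is null in the half
  line `ε x ≥ 1`.
* The sets `Joins m` of the integers exhaust everything, and each integer of the side has a positive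
  share: `β (⋃ m, Joins m) = 1` and `β (Joins m) > 0` if `ε m ≥ 1`.
* The escaping set has a positive limiting density if and only if some integer `m` of the side lies in
  a wandering domain. -/
theorem result : ∃ C : ℝ, 0 < C ∧ ∀ ε : ℝ, (ε = 1 ∨ ε = -1) → ∃ β : Set ℝ → ℝ,
    β Set.univ = 1 ∧
    (∀ E : ℕ → Set ℝ, (∀ i, Inv (E i)) → Pairwise (Function.onFun Disjoint E) →
      HasSum (fun i => β (E i)) (β (⋃ i, E i))) ∧
    (∀ E : Set ℝ, Inv E →
      (∀ n : ℕ, 1 ≤ n → |dens ε E n - β E| ≤ C * (n : ℝ) ^ (-(1 / 20) : ℝ)) ∧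
      (β E = 0 ↔ volume {x : ℝ | x ∈ E ∧ 1 ≤ ε * x} = 0)) ∧
    β (⋃ m : ℤ, Joins m) = 1 ∧ (∀ m : ℤ, 1 ≤ ε * m → 0 < β (Joins m)) ∧
    (0 < β Escaping ↔ ∃ m : ℤ, 1 ≤ ε * m ∧ IsWanderingDomain f₀ (U m)) := by
  obtain ⟨C, hC, h⟩ := Pool.Agent.E8helper52.DL.law
  refine ⟨C, hC, fun ε hε => ?_⟩
  obtain ⟨b, hb⟩ : ∃ b : Bool, ε = if b then 1 else -1 := by
    rcases hε with rfl | rfl
    · exact ⟨true, by simp⟩
    · exact ⟨false, by simp⟩
  refine ⟨Pool.Agent.E8helper52.DL.bt b, Pool.Agent.E8helper52.DL.bt_univ b, ?_, ?_,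
    Pool.Agent.E8helper52.DL.joins_all b, ?_, ?_⟩
  · intro E hE hdis
    exact Pool.Agent.E8helper52.DL.bt_hasSum (fun i => (hE i).1) hdis (fun i => F_of_inv (hE i)) b
  · intro E hE
    constructor
    · intro n hn
      rw [dens_eq hb]
      exact (h E hE.1 (F_of_inv hE) b).1 n hn
    · rw [half_eq hb]
      exact Pool.Agent.E8helper52.DL.bt_zero_iff hE.1 (F_of_inv hE) b
  · intro m hm
    exact Pool.Agent.E8helper52.DL.joins_pos ((side_iff hb m).1 hm)
  · have h1 := Pool.Agent.E8helper52.DL.bt_zero_iff Pool.Agent.E8helper52.DL.esc_meas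
      Pool.Agent.E8helper52.DL.esc_inv b
    have h2 := Pool.Agent.E8helper52.DL.bt_nonneg Pool.Agent.E8helper52.DL.esc_meas
      Pool.Agent.E8helper52.DL.esc_inv b
    have h3 := Pool.Agent.E8helper52.DL.esc_iff b
    have h4 : (∃ m : ℤ, 1 ≤ ε * m ∧ IsWanderingDomain f₀ (U m)) ↔
        ∃ m : ℤ, (if b then 1 ≤ m else m ≤ -1) ∧ IsWanderingDomain f₀ (U m) := by
      constructor
      · rintro ⟨m, hm, hw⟩
        exact ⟨m, (side_iff hb m).1 hm, hw⟩
      · rintro ⟨m, hm, hw⟩
        exact ⟨m, (side_iff hb m).2 hm, hw⟩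
    rw [h4]
    refine Iff.trans ?_ h3.symm
    rw [Ne, ← h1]
    constructor
    · exact fun h5 => h5.ne'
    · exact fun h5 => lt_of_le_of_ne h2 (Ne.symm h5)

end Pool.Agent.Results.MP_071ec9_an.LimitLawH52
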