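import Mathlib
import Pool.Agent.E8helper52.RL.Final

set_option autoImplicit false

/-! The entire function `f₀` on the real line: the real part of the Fatou set is dense and belongs to
components which are eventually mapped to components of integers. -/

open Filter Topology

namespace Pool.Agent.Results.MP_071ec9_an.RealLineH52

open Pool.Agent.H384R2.Fatou

/-- The entire function of Letherman, Schleicher and Wood; `f₀ n = T n` for every integer `n`. -/
noncomputable def f₀ (z : ℂ) : ℂ :=
  z / 2 + (z + 1 / 2) * ((1 - Complex.cos (Real.pi * z)) / 2) +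
    1 / Real.pi * (1 / 2 - Complex.cos (Real.pi * z)) * Complex.sin (Real.pi * z)

/-- The `3x+1` function. -/
def T (n : ℤ) : ℤ := if n % 2 = 0 then n / 2 else (3 * n + 1) / 2

/-- The Fatou component of `f₀` which contains the integer `n`. -/
def U (n : ℤ) : Set ℂ := FatouComponent f₀ (n : ℂ)

/-- * Every Fatou component `V` of `f₀` some iterate of which meets the real line is mapped by an
  iterate `f₀^k` into the component `U n` of an integer `n`, and then for every `w` in `V` the orbit of
  `f₀^k w` approaches the orbit of `n` under `T` doubly exponentially.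
* The points of the real line which belong to the Fatou set of `f₀` are dense in the real line.
* There is a wandering domain of `f₀` containing an integer if and only if there is a wandering domain
  of `f₀` some iterate of which meets the real line. -/
theorem result :
    (∀ z ∈ FatouSet f₀, (∃ (i : ℕ) (x : ℝ), (x : ℂ) ∈ f₀^[i] '' FatouComponent f₀ z) →
      ∃ (n : ℤ) (k : ℕ), f₀^[k] '' FatouComponent f₀ z ⊆ U n ∧
        ∀ w ∈ FatouComponent f₀ z, ∃ q : ℝ, 0 ≤ q ∧ q < 1 ∧
          ∀ᶠ j : ℕ in atTop, ‖f₀^[k + j] w - ((T^[j] n : ℤ) : ℂ)‖ ≤ q ^ (2 ^ j)) ∧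
    Dense {x : ℝ | (x : ℂ) ∈ FatouSet f₀} ∧
    ((∃ n : ℤ, IsWanderingDomain f₀ (U n)) ↔
      ∃ V : Set ℂ, IsWanderingDomain f₀ V ∧ ∃ (i : ℕ) (x : ℝ), (x : ℂ) ∈ f₀^[i] '' V) := by
  refine ⟨?_, Pool.Agent.E8helper52.RL.A_dense, ⟨?_, ?_⟩⟩
  · rintro z hz ⟨i, x, hx⟩
    obtain ⟨n, k, hk⟩ := Pool.Agent.E8helper52.RL.component_meets hz hx
    refine ⟨n, k, hk, fun w hw => ?_⟩
    obtain ⟨q, hq0, hq1, hq⟩ := Pool.Agent.E8helper52.RL.follow_all n (hk ⟨w, hw, rfl⟩)
    refine ⟨q, hq0, hq1, ?_⟩
    filter_upwards [hq] with j hj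
    rw [← Function.iterate_add_apply, add_comm] at hj
    exact hj
  · rintro ⟨n, hn⟩
    refine ⟨U n, hn, 0, (n : ℝ), ?_⟩
    refine ⟨(n : ℂ), mem_connectedComponentIn (Pool.Agent.H723R2.LSW.int_mem_fatou n), ?_⟩
    simp
  · rintro ⟨V, hV, i, x, hx⟩
    exact Pool.Agent.E8helper52.RL.wandering_real hV hx

end Pool.Agent.Results.MP_071ec9_an.RealLineH52
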