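import Mathlib
import Pool.Agent.E8helper52.RL.Final

set_option autoImplicit false

/-! The integers `-1` and `-2` lie in the same Fatou component of `f₀`. -/

namespace Pool.Agent.Results.MP_071ec9_an.SameComponentH52

open Pool.Agent.H384R2.Fatou

/-- The entire function of Letherman, Schleicher and Wood. -/
noncomputable def f₀ (z : ℂ) : ℂ :=
  z / 2 + (z + 1 / 2) * ((1 - Complex.cos (Real.pi * z)) / 2) +
    1 / Real.pi * (1 / 2 - Complex.cos (Real.pi * z)) * Complex.sin (Real.pi * z)

/-- The integers `-1` and `-2` lie in the Fatou set of `f₀`, and in the same Fatou component. -/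
theorem result : (-1 : ℂ) ∈ FatouSet f₀ ∧ (-2 : ℂ) ∈ FatouSet f₀ ∧
    FatouComponent f₀ (-1) = FatouComponent f₀ (-2) := by
  have h1 := Pool.Agent.H723R2.LSW.int_mem_fatou (-1)
  have h2 := Pool.Agent.H723R2.LSW.int_mem_fatou (-2)
  push_cast at h1 h2
  exact ⟨h1, h2, Pool.Agent.E8helper52.RL.same_component⟩

end Pool.Agent.Results.MP_071ec9_an.SameComponentH52
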